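import Pool.Agent.H252.EL.Iface
import Pool.Graph.R_seed8.TH249.Lim

/-!
# Project EL: projections over cubes are trivial (`S_PRJ`)
-/

set_option autoImplicit false
set_option linter.unusedSectionVars false

noncomputable section

namespace Pool.Agent.H278.ELPRJ

open Filter Topology
open scoped Matrix.Norms.L2Operator
open Pool.Agent.TH249 Pool.Agent.H188R3 Pool.Agent.H252.EL Matrix

section gen

lemma cont_MA {X : Type} [TopologicalSpace X] {I A : Type} [Fintype I] [DecidableEq I]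
    [CStarAlgebra A] (γ : X → MA I A) (h : ∀ i j, Continuous fun x => (γ x).en i j) :
    Continuous γ := by
  rw [continuous_iff_continuousAt]
  intro x0
  rw [ContinuousAt, tendsto_iff_norm_sub_tendsto_zero]
  have h1 : Tendsto (fun x => ∑ i, ∑ j, ‖(γ x - γ x0).en i j‖) (𝓝 x0) (𝓝 0) := by
    have h0 : (0 : ℝ) = ∑ _i : I, ∑ _j : I, 0 := by simp
    rw [h0]
    refine tendsto_finsetSum _ fun i _ => tendsto_finsetSum _ fun j _ => ?_
    have h2 := (h i j).continuousAt (x := x0)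
    rw [ContinuousAt, tendsto_iff_norm_sub_tendsto_zero] at h2
    exact h2
  exact squeeze_zero (fun _ => norm_nonneg _) (fun x => norm_MA_le _) h1

lemma cont_prod {Y : Type} [TopologicalSpace Y] {d : Bool → ℕ} {W : Type} [TopologicalSpace W]
    (F : ZZ d × Y → W) (h : ∀ b, Continuous fun p : Cb (d b) × Y => F (⟨b, p.1⟩, p.2)) :
    Continuous F := by
  rw [← Homeomorph.comp_continuous_iff'
    (Homeomorph.sigmaProdDistrib (X := fun b => Cb (d b)) (Y := Y)).symm, continuous_sigma_iff]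
  exact h

/-- the contraction of the cubes -/
def con (d : Bool → ℕ) : C(ZZ d × unitInterval, ZZ d) :=
  ⟨fun p => ⟨p.1.1, fun a => p.2 * p.1.2 a⟩, by
    refine cont_prod _ fun b => ?_
    have h1 : Continuous fun p : Cb (d b) × unitInterval => (fun a => p.2 * p.1 a : Cb (d b)) :=
      continuous_pi fun a => continuous_snd.mul ((continuous_apply a).comp continuous_fst)
    have h2 : Continuous (fun y : Cb (d b) => (⟨b, y⟩ : ZZ d)) :=
      continuous_sigmaMk (σ := fun b => Cb (d b)) (i := b)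
    exact h2.comp h1⟩

/-- the contraction as a path in the space of maps -/
def con' (d : Bool → ℕ) : C(unitInterval, C(ZZ d, ZZ d)) :=
  ((con d).comp ⟨Prod.swap, continuous_swap⟩).curry

lemma con'_apply (d : Bool → ℕ) (t : unitInterval) (z : ZZ d) :
    con' d t z = ⟨z.1, fun a => t * z.2 a⟩ := rfl

lemma con'_one (d : Bool → ℕ) : con' d 1 = ContinuousMap.id _ := by
  ext1 z
  rw [con'_apply]
  obtain ⟨b, y⟩ := z
  show (⟨b, fun a => 1 * y a⟩ : ZZ d) = ⟨b, y⟩
  congr 1
  funext a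
  exact one_mul _

lemma con'_zero (d : Bool → ℕ) (z : ZZ d) : con' d 0 z = ⟨z.1, fun _ => 0⟩ := by
  rw [con'_apply]
  congr 1
  funext a
  exact zero_mul _

/-- the pullback -/
def pb {d : Bool → ℕ} {n : ℕ} (g : C(ZZ d, ZZ d)) : BB (ZZ d) n →⋆ₐ[ℂ] BB (ZZ d) n :=
  ContinuousMap.compStarAlgHom' ℂ (Matrix (Fin n) (Fin n) ℂ) g

lemma pb_apply {d : Bool → ℕ} {n : ℕ} (g : C(ZZ d, ZZ d)) (f : BB (ZZ d) n) (z : ZZ d) :
    pb g f z = f (g z) := rfl

lemma pb_cont {d : Bool → ℕ} {n : ℕ} (f : BB (ZZ d) n) :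
    Continuous fun t : unitInterval => pb (con' d t) f :=
  (ContinuousMap.continuous_postcomp f).comp (con' d).continuous

/-- a projection is equivalent to its contraction -/
lemma contract {d : Bool → ℕ} {n k : ℕ} (Q : Matrix (Fin k) (Fin k) (BB (ZZ d) n))
    (hQ : IsPrj Q) : Eqv Q (Q.map (pb (con' d 0))) := by
  have h1 : Q.map (pb (con' d 1)) = Q := by
    ext u v z : 3
    rw [Matrix.map_apply, pb_apply, con'_one]
    rfl
  have hP : ∀ t, IsPrj (Q.map (pb (con' d t))) := fun t => hQ.map _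
  have key := PreconnectedSpace.induction₂'
    (fun s t : unitInterval => Eqv (Q.map (pb (con' d s))) (Q.map (pb (con' d t)))) ?_ ?_ 1 0
  · rw [h1] at key
    exact key
  · intro s
    have hc : Continuous fun t : unitInterval => toMA (Q.map (pb (con' d t))) := by
      refine cont_MA _ fun i j => ?_
      exact pb_cont (Q i j)
    have h2 : ∀ᶠ t in 𝓝 s, ‖toMA (Q.map (pb (con' d s))) - toMA (Q.map (pb (con' d t)))‖ < 1 := by
      have h3 : Tendsto (fun t => ‖toMA (Q.map (pb (con' d s))) - toMA (Q.map (pb (con' d t)))‖)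
          (𝓝 s) (𝓝 ‖toMA (Q.map (pb (con' d s))) - toMA (Q.map (pb (con' d s)))‖) :=
        ((continuous_const.sub hc).norm).continuousAt
      rw [sub_self, norm_zero] at h3
      exact h3.eventually (gt_mem_nhds one_pos)
    filter_upwards [h2] with t ht
    have h4 : Eqv (Q.map (pb (con' d s))) (Q.map (pb (con' d t))) := by
      rw [eqv_iff]
      exact JF.close _ _ (isPrj_iff.1 (hP s)) (isPrj_iff.1 (hP t)) ht
    exact ⟨h4, h4.symm⟩
  · exact ⟨fun a b c hab hbc => Eqv.trans (hP a) (hP c) hab hbc⟩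

/-- matrices of functions which are constant on the components -/
def Kc (d : Bool → ℕ) {n k : ℕ} (X : Bool → Matrix (Fin k × Fin n) (Fin k × Fin n) ℂ) :
    Matrix (Fin k) (Fin k) (BB (ZZ d) n) :=
  Matrix.of fun u v => ⟨fun z => Matrix.of fun a a' => X z.1 (u, a) (v, a'), by
    refine continuous_sigma fun b => ?_
    change Continuous fun _ : Cb (d b) => (Matrix.of fun a a' => X b (u, a) (v, a'))
    exact continuous_const⟩

lemma Kc_apply (d : Bool → ℕ) {n k : ℕ}
    (X : Bool → Matrix (Fin k × Fin n) (Fin k × Fin n) ℂ) (u v : Fin k) (z : ZZ d)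
    (a a' : Fin n) : Kc d X u v z a a' = X z.1 (u, a) (v, a') := rfl

lemma Kc_mul (d : Bool → ℕ) {n k : ℕ}
    (X Y : Bool → Matrix (Fin k × Fin n) (Fin k × Fin n) ℂ) :
    Kc d X * Kc d Y = Kc d fun b => X b * Y b := by
  ext u v z a a'
  rw [Kc_apply, Matrix.mul_apply, Matrix.mul_apply, Fintype.sum_prod_type,
    ContinuousMap.sum_apply, Matrix.sum_apply]
  refine Finset.sum_congr rfl fun w _ => ?_
  rw [ContinuousMap.mul_apply, Matrix.mul_apply]
  rfl

lemma Kc_star (d : Bool → ℕ) {n k : ℕ}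
    (X : Bool → Matrix (Fin k × Fin n) (Fin k × Fin n) ℂ) :
    (Kc d X)ᴴ = Kc d fun b => star (X b) := by
  ext u v z a a'
  rfl

lemma Kc_eqv (d : Bool → ℕ) {n k : ℕ}
    (X Y : Bool → Matrix (Fin k × Fin n) (Fin k × Fin n) ℂ)
    (h : ∀ b, ∃ v : Matrix (Fin k × Fin n) (Fin k × Fin n) ℂ,
      star v * v = X b ∧ v * star v = Y b) : Eqv (Kc d X) (Kc d Y) := by
  choose v h1 h2 using h
  refine ⟨Kc d v, ?_, ?_⟩
  · rw [Kc_star, Kc_mul]
    simp only [h1]
  · rw [Kc_star, Kc_mul]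
    simp only [h2]

/-- the constant diagonal projection -/
def dgp (n k r : ℕ) : Matrix (Fin k × Fin n) (Fin k × Fin n) ℂ :=
  diagonal fun p => if (p.1 : ℕ) * n + (p.2 : ℕ) < r then 1 else 0

lemma dgp_star (n k r : ℕ) : star (dgp n k r) = dgp n k r := by
  unfold dgp
  rw [star_eq_conjTranspose, diagonal_conjTranspose]
  congr 1
  funext p
  rw [Pi.star_apply]
  split_ifs <;> simp

lemma dgp_mul (n k r : ℕ) : dgp n k r * dgp n k r = dgp n k r := by
  unfold dgp
  rw [diagonal_mul_diagonal]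
  congr 1
  funext p
  split_ifs <;> simp

lemma dgp_proj (n k r : ℕ) : IsStarProjection (dgp n k r) :=
  ⟨dgp_mul n k r, dgp_star n k r⟩

lemma sum_lt (n k r : ℕ) (hr : r ≤ k * n) :
    ∑ p : Fin k × Fin n, (if (p.1 : ℕ) * n + (p.2 : ℕ) < r then (1 : ℂ) else 0) = r := by
  have h1 : ∑ p : Fin k × Fin n, (if (p.1 : ℕ) * n + (p.2 : ℕ) < r then (1 : ℂ) else 0) =
      ∑ q : Fin (k * n), (if (q : ℕ) < r then (1 : ℂ) else 0) := by
    rw [← Equiv.sum_comp finProdFinEquiv]
    refine Finset.sum_congr rfl fun p _ => ?_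
    have : ((finProdFinEquiv p : Fin (k * n)) : ℕ) = (p.1 : ℕ) * n + (p.2 : ℕ) := by
      rw [finProdFinEquiv_apply_val]
      ring
    rw [this]
  rw [h1, Fin.sum_univ_eq_sum_range (fun q => if q < r then (1 : ℂ) else 0) (k * n),
    Finset.sum_boole]
  congr 1
  have : (Finset.range (k * n)).filter (fun q => q < r) = Finset.range r := by
    ext q
    simp only [Finset.mem_filter, Finset.mem_range]
    omega
  rw [this, Finset.card_range]

lemma dgp_trace (n k r : ℕ) (hr : r ≤ k * n) : (dgp n k r).trace = r := by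
  unfold dgp
  rw [trace_diagonal, sum_lt n k r hr]

end gen

lemma cp_eq (D : Sys) (i k : ℕ) (ρ : Bool → ℕ) :
    D.cp i k ρ = Kc (D.d i) fun b => dgp (D.n i) k (ρ b) := by
  ext u v z a a'
  rw [Kc_apply]
  unfold Sys.cp dgp
  rw [Matrix.diagonal_apply, Matrix.diagonal_apply]
  by_cases huv : u = v
  · subst huv
    rw [if_pos rfl]
    show Matrix.diagonal (fun a : Fin (D.n i) =>
        if (u : ℕ) * D.n i + (a : ℕ) < ρ z.1 then (1 : ℂ) else 0) a a' = _
    rw [Matrix.diagonal_apply]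
    by_cases ha : a = a'
    · subst ha
      simp
    · rw [if_neg ha, if_neg (fun h => ha (Prod.ext_iff.1 h).2)]
  · rw [if_neg huv, if_neg (fun h => huv (Prod.ext_iff.1 h).1)]
    rfl

lemma cp_prj (D : Sys) (i k : ℕ) (ρ : Bool → ℕ) : IsPrj (D.cp i k ρ) := by
  rw [cp_eq]
  refine ⟨?_, ?_⟩
  · rw [Kc_star]
    simp only [dgp_star]
  · rw [Kc_mul]
    simp only [dgp_mul]

lemma part1 (D : Sys) (i k : ℕ) (Q : Matrix (Fin k) (Fin k) (D.A i)) (hQ : IsPrj Q) :
    ∃ ρ : Bool → ℕ, (∀ b, ρ b ≤ k * D.n i) ∧ Eqv Q (D.cp i k ρ) := by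
  set X : Bool → Matrix (Fin k × Fin (D.n i)) (Fin k × Fin (D.n i)) ℂ := fun b =>
    Matrix.of fun p q => Q p.1 q.1 ⟨b, fun _ => 0⟩ p.2 q.2 with hX
  have hQ0 : Q.map (pb (con' (D.d i) 0)) = Kc (D.d i) X := by
    ext u v z a a'
    rw [Matrix.map_apply, pb_apply, con'_zero, Kc_apply]
    rfl
  have hP : IsPrj (Q.map (pb (con' (D.d i) 0))) := hQ.map _
  have hXp : ∀ b, IsStarProjection (X b) := by
    intro b
    rw [hQ0] at hP
    obtain ⟨h1, h2⟩ := hP
    rw [Kc_star] at h1
    rw [Kc_mul] at h2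
    refine ⟨?_, ?_⟩
    · ext ⟨u, a⟩ ⟨v, a'⟩
      have := congrFun (congrFun (congrArg (fun f : BB (D.Z i) (D.n i) => f ⟨b, fun _ => 0⟩)
        (congrFun (congrFun h2 u) v)) a) a'
      exact this
    · ext ⟨u, a⟩ ⟨v, a'⟩
      have := congrFun (congrFun (congrArg (fun f : BB (D.Z i) (D.n i) => f ⟨b, fun _ => 0⟩)
        (congrFun (congrFun h1 u) v)) a) a'
      exact this
  have hr : ∀ b, ∃ r : ℕ, r ≤ k * D.n i ∧ (X b).trace = r := by
    intro b
    obtain ⟨U, a, hU, -, ha, hpU⟩ := JA.spec_proj (X b) (hXp b)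
    refine ⟨Fintype.card {x // a x = 1}, ?_, ?_⟩
    · refine (Fintype.card_subtype_le _).trans ?_
      rw [Fintype.card_prod, Fintype.card_fin, Fintype.card_fin]
    · rw [hpU, JA.trace_spec U _ hU]
      have := JA.card_one a ha
      exact_mod_cast this
  choose ρ hρ1 hρ2 using hr
  refine ⟨ρ, hρ1, ?_⟩
  have h1 := contract Q hQ
  have h2 : Eqv (Q.map (pb (con' (D.d i) 0))) (D.cp i k ρ) := by
    rw [hQ0, cp_eq]
    refine Kc_eqv _ _ _ fun b => ?_
    refine JA.rk _ _ (hXp b) (dgp_proj _ _ _) ?_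
    rw [hρ2, dgp_trace _ _ _ (hρ1 b)]
  exact Eqv.trans hQ (cp_prj D i k ρ) h1 h2

/-- matrix units on a component -/
def EE (D : Sys) (i : ℕ) (b : Bool) (a a' : Fin (D.n i)) : D.A i :=
  ⟨fun z => if z.1 = b then Matrix.single a a' 1 else 0, by
    refine continuous_sigma fun b' => ?_
    change Continuous fun _ : Cb (D.d i b') =>
      (if b' = b then (Matrix.single a a' 1 : Matrix (Fin (D.n i)) (Fin (D.n i)) ℂ) else 0)
    exact continuous_const⟩

lemma EE_apply (D : Sys) (i : ℕ) (b : Bool) (a a' : Fin (D.n i)) (z : D.Z i) :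
    EE D i b a a' z = if z.1 = b then Matrix.single a a' 1 else 0 := rfl

lemma EE_mul (D : Sys) (i : ℕ) (b : Bool) (a a' a'' : Fin (D.n i)) :
    EE D i b a a' * EE D i b a' a'' = EE D i b a a'' := by
  ext1 z
  rw [ContinuousMap.mul_apply, EE_apply, EE_apply, EE_apply]
  split_ifs
  · rw [Matrix.single_mul_single_same, one_mul]
  · rw [mul_zero]

lemma EE_sum (D : Sys) (i : ℕ) (b : Bool) : ∑ a, EE D i b a a = D.one i b := by
  ext1 z
  rw [ContinuousMap.sum_apply]
  show _ = if z.1 = b then 1 else 0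
  simp only [EE_apply]
  split_ifs
  · exact Matrix.sum_single_one
  · simp

lemma part2 (D : Sys) (i k : ℕ) (ρ : Bool → ℕ) (hρ : ∀ b, ρ b ≤ k * D.n i) (t : D.A i →ₗ[ℂ] ℂ)
    (ht : ∀ x y, t (x * y) = t (y * x)) :
    ∑ u, t (D.cp i k ρ u u) = ∑ b, ((ρ b : ℝ) / D.n i : ℝ) * t (D.one i b) := by
  have h1 : ∀ b a a', t (EE D i b a a) = t (EE D i b a' a') := by
    intro b a a'
    rw [← EE_mul D i b a a' a, ht, EE_mul]
  have h2 : ∀ b a, (D.n i : ℂ) * t (EE D i b a a) = t (D.one i b) := by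
    intro b a
    rw [← EE_sum, map_sum, Finset.sum_congr rfl fun a' _ => h1 b a' a]
    simp
  have h3 : ∀ u, D.cp i k ρ u u = ∑ b, ∑ a : Fin (D.n i),
      (if (u : ℕ) * D.n i + (a : ℕ) < ρ b then (1 : ℂ) else 0) • EE D i b a a := by
    intro u
    rw [cp_eq]
    ext1 z
    ext x y
    rw [Kc_apply]
    rw [ContinuousMap.sum_apply, Matrix.sum_apply, Finset.sum_eq_single z.1]
    · rw [ContinuousMap.sum_apply, Matrix.sum_apply]
      unfold dgp
      simp only [ContinuousMap.smul_apply, EE_apply, if_true, Matrix.smul_apply]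
      rw [Matrix.diagonal_apply]
      by_cases hxy : x = y
      · subst hxy
        rw [if_pos rfl, Finset.sum_eq_single x]
        · simp
        · intro a _ ha
          rw [Matrix.single_apply, if_neg (fun h : a = x ∧ a = x => ha h.1), smul_zero]
        · intro h
          exact absurd (Finset.mem_univ _) h
      · rw [if_neg (fun h => hxy (Prod.ext_iff.1 h).2)]
        symm
        refine Finset.sum_eq_zero fun a _ => ?_
        rw [Matrix.single_apply, if_neg (fun h : a = x ∧ a = y => hxy (h.1.symm.trans h.2)),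
          smul_zero]
    · intro b _ hb
      rw [ContinuousMap.sum_apply, Matrix.sum_apply]
      refine Finset.sum_eq_zero fun a _ => ?_
      rw [ContinuousMap.smul_apply, EE_apply, if_neg (Ne.symm hb), smul_zero]
      rfl
    · intro h
      exact absurd (Finset.mem_univ _) h
  simp only [h3, map_sum, map_smul, smul_eq_mul]
  rw [Finset.sum_comm]
  refine Finset.sum_congr rfl fun b _ => ?_
  have h4 := sum_lt (D.n i) k (ρ b) (hρ b)
  rw [Fintype.sum_prod_type] at h4
  rcases Nat.eq_zero_or_pos (D.n i) with hn | hn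
  · have h5 : ∀ u : Fin k, ∑ a : Fin (D.n i),
        (if (u : ℕ) * D.n i + (a : ℕ) < ρ b then (1 : ℂ) else 0) * t (EE D i b a a) = 0 := by
      intro u
      refine Finset.sum_eq_zero fun a _ => ?_
      exact absurd a.isLt (by omega)
    have h6 : ((ρ b : ℝ) / (D.n i : ℝ) : ℝ) = 0 := by
      have : (D.n i : ℝ) = 0 := by exact_mod_cast hn
      rw [this, div_zero]
    rw [Finset.sum_eq_zero fun u _ => h5 u, h6]
    simp
  · have hn' : (D.n i : ℂ) ≠ 0 := by
      exact_mod_cast hn.ne'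
    have h5 : ∀ a, t (EE D i b a a) = t (D.one i b) / D.n i := by
      intro a
      rw [← h2 b a]
      field_simp
    simp only [h5]
    rw [Finset.sum_congr rfl fun u _ => (Finset.sum_mul _ _ _).symm, ← Finset.sum_mul, h4]
    push_cast
    ring

theorem s_PRJ : Pool.Agent.H252.EL.S_PRJ := by
  intro D _ i k
  refine ⟨fun Q hQ => part1 D i k Q hQ, fun ρ hρ => ⟨cp_prj D i k ρ, ?_⟩⟩
  intro L _ j _ τ hτ
  have h := part2 D i k ρ hρ
    ((τ : L →ₗ[ℂ] ℂ).comp (j i).toAlgHom.toLinearMap) (fun x y => by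
      show τ (j i (x * y)) = τ (j i (y * x))
      rw [map_mul (j i), map_mul (j i)]
      exact hτ.2.2 _ _)
  exact h

end Pool.Agent.H278.ELPRJ
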