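import Pool.Agent.H252.UQ.Iface

set_option autoImplicit false

open scoped ComplexConjugate

noncomputable section

namespace Pool.Agent.H278.UQ_CMP

open Pool.Agent.H923R2.FP Pool.Agent.H923R2.FZ Pool.Agent.N300.UN Pool.Agent.H252.UQ
open Filter Topology

variable {A : Type} [CStarAlgebra A]

theorem pos_fact (a : A) (ha : IsSelfAdjoint a) (f : ℝ → ℝ) (hf : Continuous f)
    (h0 : ∀ t ∈ spectrum ℝ a, 0 ≤ f t) :
    cfc f a = star (cfc (fun t => Real.sqrt (f t)) a) * cfc (fun t => Real.sqrt (f t)) a := by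
  have hc : Continuous fun t => Real.sqrt (f t) := Real.continuous_sqrt.comp hf
  rw [star_cfc, cmul a _ _ hc hc]
  exact cfc_congr fun t ht => (Real.mul_self_sqrt (h0 t ht)).symm

theorem tpos (τ : A →ₗ[ℂ] ℂ) (hτ : FTS τ) (a : A) (ha : IsSelfAdjoint a) (f : ℝ → ℝ)
    (hf : Continuous f) (h0 : ∀ t ∈ spectrum ℝ a, 0 ≤ f t) : 0 ≤ (τ (cfc f a)).re := by
  rw [pos_fact a ha f hf h0]; exact hτ.nonneg _

theorem tmono (τ : A →ₗ[ℂ] ℂ) (hτ : FTS τ) (a : A) (ha : IsSelfAdjoint a) (f g : ℝ → ℝ)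
    (hf : Continuous f) (hg : Continuous g) (h0 : ∀ t ∈ spectrum ℝ a, f t ≤ g t) :
    (τ (cfc f a)).re ≤ (τ (cfc g a)).re := by
  have h1 := tpos τ hτ a ha (fun t => g t - f t) (hg.sub hf) fun t ht => sub_nonneg.2 (h0 t ht)
  rw [cfc_sub g f a hg.continuousOn hf.continuousOn, map_sub, Complex.sub_re] at h1
  linarith

/-- the root function -/
def rf (M : ℝ) (m : ℕ) (t : ℝ) : ℝ := (t / M) ^ (((m + 1 : ℕ) : ℝ)⁻¹)

theorem inv_pos' (m : ℕ) : 0 < (((m + 1 : ℕ) : ℝ)⁻¹) := by positivity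

theorem rf_cont (M : ℝ) (m : ℕ) : Continuous (rf M m) := by
  unfold rf
  exact (Real.continuous_rpow_const (inv_pos' m).le).comp (by fun_prop)

theorem rf_01 {M : ℝ} (hM : 0 < M) (m : ℕ) {t : ℝ} (h0 : 0 ≤ t) (h1 : t ≤ M) :
    0 ≤ rf M m t ∧ rf M m t ≤ 1 := by
  unfold rf
  have h2 : 0 ≤ t / M := div_nonneg h0 hM.le
  have h3 : t / M ≤ 1 := (div_le_one hM).2 h1
  exact ⟨Real.rpow_nonneg h2 _, Real.rpow_le_one h2 h3 (inv_pos' m).le⟩

theorem rf_mono {M : ℝ} (hM : 0 < M) {m n : ℕ} (hmn : m ≤ n) {t : ℝ} (h0 : 0 ≤ t) (h1 : t ≤ M) :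
    rf M m t ≤ rf M n t := by
  unfold rf
  have h3 : t / M ≤ 1 := (div_le_one hM).2 h1
  rcases h0.eq_or_lt with h | h
  · rw [← h, zero_div, Real.zero_rpow (inv_pos' m).ne', Real.zero_rpow (inv_pos' n).ne']
  · refine Real.rpow_le_rpow_of_exponent_ge (div_pos h hM) h3 ?_
    gcongr

theorem rf_pow {M : ℝ} (hM : 0 < M) (m : ℕ) {t : ℝ} (h0 : 0 ≤ t) :
    rf M m t ^ (m + 1) = t / M := by
  unfold rf
  exact Real.rpow_inv_natCast_pow (div_nonneg h0 hM.le) (Nat.succ_ne_zero m)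

theorem rf_scale {M : ℝ} (hM : 0 < M) (m : ℕ) {t : ℝ} (h0 : 0 ≤ t) :
    M ^ (((m + 1 : ℕ) : ℝ)⁻¹) * rf M m t = rf 1 m t := by
  unfold rf
  rw [← Real.mul_rpow hM.le (div_nonneg h0 hM.le), mul_div_cancel₀ _ hM.ne', div_one]

theorem hasDim (τ : A →ₗ[ℂ] ℂ) (hτ : FTS τ) (a : A) (ha : IsSelfAdjoint a) (M : ℝ) (hM : 0 < M)
    (hsp : ∀ t ∈ spectrum ℝ a, 0 ≤ t ∧ t ≤ M) :
    HasDim (fun x => τ x) a (⨆ m : ℕ, (τ (cfc (rf M m) a)).re) ∧
      BddAbove (Set.range fun m : ℕ => (τ (cfc (rf M m) a)).re) := by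
  have hbdd : BddAbove (Set.range fun m : ℕ => (τ (cfc (rf M m) a)).re) := by
    refine ⟨(τ (cfc (fun _ : ℝ => (1 : ℝ)) a)).re, ?_⟩
    rintro _ ⟨m, rfl⟩
    exact tmono τ hτ a ha _ _ (rf_cont M m) continuous_const
      fun t ht => (rf_01 hM m (hsp t ht).1 (hsp t ht).2).2
  have hmono : Monotone fun m : ℕ => (τ (cfc (rf M m) a)).re := fun m n hmn =>
    tmono τ hτ a ha _ _ (rf_cont M m) (rf_cont M n)
      fun t ht => rf_mono hM hmn (hsp t ht).1 (hsp t ht).2
  have hlim := tendsto_atTop_ciSup hmono hbdd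
  refine ⟨⟨fun m => cfc (rf 1 m) a, fun m => ⟨?_, ?_⟩, ?_⟩, hbdd⟩
  · refine ⟨cfc (fun t => Real.sqrt (rf 1 m t)) a, pos_fact a ha _ (rf_cont 1 m) fun t ht => ?_⟩
    unfold rf
    rw [div_one]
    exact Real.rpow_nonneg (hsp t ht).1 _
  · rw [← cfc_pow (rf 1 m) (m + 1) a (rf_cont 1 m).continuousOn]
    have : cfc (fun t => rf 1 m t ^ (m + 1)) a = cfc (fun t : ℝ => t) a :=
      cfc_congr fun t ht => by
        show rf 1 m t ^ (m + 1) = t
        rw [rf_pow one_pos m (hsp t ht).1, div_one]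
    rw [this]
    exact cfc_id' ℝ a
  · have h1 : ∀ m : ℕ, (τ (cfc (rf 1 m) a)).re =
        M ^ (((m + 1 : ℕ) : ℝ)⁻¹) * (τ (cfc (rf M m) a)).re := by
      intro m
      have : cfc (rf 1 m) a = cfc (fun t => M ^ (((m + 1 : ℕ) : ℝ)⁻¹) * rf M m t) a :=
        cfc_congr fun t ht => (rf_scale hM m (hsp t ht).1).symm
      rw [this, cfc_const_mul _ _ _ (rf_cont M m).continuousOn]
      rw [← Complex.coe_smul, map_smul, smul_eq_mul, Complex.re_ofReal_mul]
    have h2 : Tendsto (fun m : ℕ => M ^ (((m + 1 : ℕ) : ℝ)⁻¹)) atTop (𝓝 1) := by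
      have h3 : Tendsto (fun m : ℕ => (((m + 1 : ℕ) : ℝ)⁻¹)) atTop (𝓝 0) := by
        have := tendsto_one_div_add_atTop_nhds_zero_nat (𝕜 := ℝ)
        refine this.congr fun m => ?_
        rw [one_div]; push_cast; rfl
      have h4 := (Real.continuousAt_const_rpow (a := M) (b := 0) hM.ne').tendsto.comp h3
      rw [Real.rpow_zero] at h4
      exact h4
    have h3 := h2.mul hlim
    rw [one_mul] at h3
    exact h3.congr fun m => (h1 m).symm

/-- a self-adjoint root annihilates what its power annihilates -/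
theorem root_ann (s z : A) (hs : IsSelfAdjoint s) : ∀ n : ℕ, s ^ (n + 1) * z = 0 → s * z = 0 := by
  intro n
  induction n with
  | zero => intro h; simpa using h
  | succ n ih =>
    intro h
    apply ih
    have h1 : star (s ^ (n + 1) * z) * (s ^ (n + 1) * z) = 0 := by
      rw [star_mul, star_pow, hs.star_eq]
      calc star z * s ^ (n + 1) * (s ^ (n + 1) * z)
          = star z * s ^ n * (s ^ (n + 1 + 1) * z) := by
            rw [pow_succ s n, pow_succ' s (n + 1), pow_succ s n]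
            simp only [mul_assoc]
        _ = 0 := by rw [h, mul_zero]
    exact (CStarRing.star_mul_self_eq_zero_iff _).1 h1

theorem le_e (τ : A →ₗ[ℂ] ℂ) (hτ : FTS τ) (a e : A) (ha : IsSelfAdjoint a) (he : PC e)
    (hae : a * e = a) (M : ℝ) (hM : 0 < M) (hsp : ∀ t ∈ spectrum ℝ a, 0 ≤ t ∧ t ≤ M) (m : ℕ) :
    (τ (cfc (rf M m) a)).re ≤ (τ e).re := by
  set s := cfc (rf M m) a with hs
  have hsa : IsSelfAdjoint s := cfc_predicate (R := ℝ) (rf M m) a
  have hpow : s ^ (m + 1) = (M⁻¹ : ℝ) • a := by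
    rw [hs, ← cfc_pow (rf M m) (m + 1) a (rf_cont M m).continuousOn]
    have : cfc (fun t => rf M m t ^ (m + 1)) a = cfc (fun t : ℝ => M⁻¹ * t) a :=
      cfc_congr fun t ht => by
        show rf M m t ^ (m + 1) = M⁻¹ * t
        rw [rf_pow hM m (hsp t ht).1, div_eq_inv_mul]
    rw [this, cfc_const_mul M⁻¹ (fun t : ℝ => t) a (continuous_id'.continuousOn), cfc_id' ℝ a]
  have h1 : s * (1 - e) = 0 := by
    apply root_ann s (1 - e) hsa m
    rw [hpow, smul_mul_assoc, mul_sub, mul_one, hae, sub_self, smul_zero]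
  have hse : s * e = s := by
    rw [mul_sub, mul_one, sub_eq_zero] at h1; exact h1.symm
  have hes : e * s = s := by
    have := congrArg star hse
    rwa [star_mul, hsa.star_eq, he.1.star_eq] at this
  -- `e = c* c`
  set c := cfc Real.sqrt e with hc
  have hcc : star c * c = e := by
    rw [hc, star_cfc, cmul _ _ _ Real.continuous_sqrt Real.continuous_sqrt]
    have : cfc (fun t => Real.sqrt t * Real.sqrt t) e = cfc (fun t : ℝ => t) e :=
      cfc_congr fun t ht => Real.mul_self_sqrt (he.2 ht).1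
    rw [this]
    exact cfc_id' ℝ e he.1
  have h2 : 0 ≤ (τ (star (c * (1 - s)) * (c * (1 - s)))).re := hτ.nonneg _
  have h3 : star (c * (1 - s)) * (c * (1 - s)) = e - s - s + s * s := by
    rw [star_mul, mul_assoc, ← mul_assoc (star c), hcc, star_sub, star_one, hsa.star_eq]
    calc (1 - s) * (e * (1 - s)) = e - e * s - s * e + s * (e * s) := by noncomm_ring
      _ = _ := by rw [hes, hse]
  have h4 : 0 ≤ (τ (cfc (fun t => rf M m t - rf M m t * rf M m t) a)).re :=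
    tpos τ hτ a ha _ ((rf_cont M m).sub ((rf_cont M m).mul (rf_cont M m))) fun t ht => by
      have := rf_01 hM m (hsp t ht).1 (hsp t ht).2
      nlinarith [this.1, this.2]
  have h5 : cfc (fun t => rf M m t - rf M m t * rf M m t) a = s - s * s := by
    rw [cfc_sub (rf M m) (fun t => rf M m t * rf M m t) a (rf_cont M m).continuousOn
      ((rf_cont M m).mul (rf_cont M m)).continuousOn, hs, cmul _ _ _ (rf_cont M m) (rf_cont M m)]
  rw [h5] at h4
  rw [h3] at h2
  simp only [map_sub, map_add, Complex.sub_re, Complex.add_re] at h2 h4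
  linarith

theorem sp_bound [Nontrivial A] (x : A) : ∀ t ∈ spectrum ℝ (star x * x), 0 ≤ t ∧ t ≤ ‖star x * x‖ :=
  fun t ht => ⟨spectrum_star_mul_self_nonneg t ht,
    (le_abs_self t).trans (by
      have := spectrum.norm_le_norm_of_mem ht
      rwa [Real.norm_eq_abs] at this)⟩

theorem s_CMP : S_CMP := by
  intro A _ τ hτ hcmp x y e he hxe hy hlt ε hε
  have hnt : Nontrivial A := by
    refine ⟨1, 0, fun h => ?_⟩
    have := hτ.one
    rw [h, map_zero] at this
    exact zero_ne_one this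
  have hsa : ∀ z : A, IsSelfAdjoint (star z * z) := fun z => IsSelfAdjoint.star_mul_self z
  have hb1 : ‖star y * y‖ ≤ 1 := by
    rw [CStarRing.norm_star_mul_self]
    nlinarith [norm_nonneg y]
  have hspa : ∀ t ∈ spectrum ℝ (star x * x), 0 ≤ t ∧ t ≤ ‖star x * x‖ + 1 := fun t ht =>
    ⟨(sp_bound x t ht).1, (sp_bound x t ht).2.trans (by linarith)⟩
  have hspb : ∀ t ∈ spectrum ℝ (star y * y), 0 ≤ t ∧ t ≤ 1 := fun t ht =>
    ⟨(sp_bound y t ht).1, (sp_bound y t ht).2.trans hb1⟩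
  have hMa : 0 < ‖star x * x‖ + 1 := by positivity
  obtain ⟨da, ba⟩ := hasDim τ hτ (star x * x) (hsa x) _ hMa hspa
  obtain ⟨db, bb⟩ := hasDim τ hτ (star y * y) (hsa y) 1 one_pos hspb
  have hd : (⨆ m : ℕ, (τ (cfc (rf (‖star x * x‖ + 1) m) (star x * x))).re) ≤ (τ e).re :=
    ciSup_le fun m => le_e τ hτ _ e (hsa x) he (by rw [mul_assoc, hxe]) _ hMa hspa m
  have he' : (τ (star y * y)).re ≤ ⨆ m : ℕ, (τ (cfc (rf 1 m) (star y * y))).re := by
    refine le_trans (le_of_eq ?_) (le_ciSup bb 0)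
    have : cfc (rf 1 0) (star y * y) = cfc (fun t : ℝ => t) (star y * y) :=
      cfc_congr fun t ht => by
        show rf 1 0 t = t
        unfold rf
        simp
    rw [this]
    congr 2
    exact (cfc_id' ℝ (star y * y)).symm
  obtain ⟨v, hv⟩ := hcmp (star x * x) (star y * y) ⟨x, rfl⟩ ⟨y, rfl⟩
    ⟨_, _, da, db, hd.trans_lt (hlt.trans_le he')⟩ ε hε
  refine ⟨star v, ?_⟩
  have : star (y * star v) * (y * star v) = v * (star y * y) * star v := by
    rw [star_mul, star_star]; simp only [mul_assoc]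
  rw [this]
  exact hv

end Pool.Agent.H278.UQ_CMP
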