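import Pool.Agent.H867.FT.Gen2
import Pool.Agent.H278.FT867KEY

/-!
# Project FT (helper867), task KEE: the refined key valuation estimate
-/

set_option autoImplicit false
set_option linter.style.haveILetI false

namespace Pool.Agent.H278.FT867

open Pool.Agent.H867.FT

theorem kee : Pool.Agent.H867.FT.S_KEE := by
  intro V L W K _ _ _ _ _ _ _ _ _ _ _ _ _ _ _ _ _ _ _ q M π δ ρ T γ hq hπ hδ hdual hρ hT hTV hγ
  haveI : Algebra.IsIntegral V W := IsIntegralClosure.isIntegral_algebra V K
  haveI : IsDedekindDomain W := IsIntegralClosure.isDedekindDomain V L K W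
  have hVK : Function.Injective (algebraMap V K) := by
    rw [IsScalarTower.algebraMap_eq V L K]
    exact (algebraMap L K).injective.comp (IsFractionRing.injective V L)
  have hVW : Function.Injective (algebraMap V W) := by
    intro x y hxy
    apply hVK
    rw [IsScalarTower.algebraMap_apply V W K, IsScalarTower.algebraMap_apply V W K, hxy]
  haveI : FaithfulSMul V W := (faithfulSMul_iff_algebraMap_injective V W).2 hVW
  haveI : Module.IsTorsionFree V W := inferInstance
  haveI : IsPrincipalIdealRing W := pid V W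
  have hWK : Function.Injective (algebraMap W K) := IsFractionRing.injective W K
  have hδ' : algebraMap W K δ ≠ 0 := fun h => hδ (hWK (by rw [h, map_zero]))
  have hπ0 : algebraMap V W π ≠ 0 := fun h => hπ.ne_zero (hVW (by rw [h, map_zero]))
  have hπ' : algebraMap W K (algebraMap V W π) ≠ 0 := fun h => hπ0 (hWK (by rw [h, map_zero]))
  -- the basic property
  have star : ∀ y : K, (∃ w : W, γ * y ^ q * algebraMap W K δ =
      algebraMap W K (algebraMap V W π ^ M * w)) →
      ∃ w : W, y * algebraMap W K δ = algebraMap W K w := by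
    rintro y ⟨w₀, hw₀⟩
    rw [← hdual]
    intro w
    have h1 := hγ (y * algebraMap W K w)
    obtain ⟨v₁, hv₁⟩ := (hdual (algebraMap W K (w₀ * w ^ q) / algebraMap W K δ)).2
      ⟨w₀ * w ^ q, div_mul_cancel₀ _ hδ'⟩ 1
    rw [map_one, mul_one] at hv₁
    have h2 : γ * (y * algebraMap W K w) ^ q = algebraMap L K (algebraMap V L (π ^ M)) *
        (algebraMap W K (w₀ * w ^ q) / algebraMap W K δ) := by
      rw [← IsScalarTower.algebraMap_apply V L K, IsScalarTower.algebraMap_apply V W K,
        ← mul_div_assoc, eq_div_iff hδ']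
      calc γ * (y * algebraMap W K w) ^ q * algebraMap W K δ
          = (γ * y ^ q * algebraMap W K δ) * algebraMap W K w ^ q := by ring
        _ = _ := by
          rw [hw₀]
          simp only [map_mul, map_pow]
          ring
    have h3 : Algebra.trace L K (γ * (y * algebraMap W K w) ^ q) =
        algebraMap V L (π ^ M * v₁) := by
      rw [h2, ← Algebra.smul_def, map_smul, smul_eq_mul, ← hv₁, ← map_mul]
    rw [h3] at h1
    obtain ⟨v', hv'⟩ := hTV v₁
    exact ⟨v', by rw [← hv', ← h1]⟩
  -- `γ ≠ 0`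
  have hγ0 : γ ≠ 0 := by
    intro h
    apply Algebra.trace_ne_zero L K
    ext y
    rw [hγ y, h, zero_mul, map_zero, map_zero, LinearMap.zero_apply]
  -- the reduced fraction
  obtain ⟨n, rfl⟩ : ∃ n, q = n + 1 := ⟨q - 1, by omega⟩
  rw [Nat.add_sub_cancel]
  obtain ⟨a, b, hab, hmk⟩ := IsFractionRing.exists_reduced_fraction W
    (γ / (algebraMap W K (algebraMap V W π) ^ M * algebraMap W K δ ^ n))
  have hb0 : (b : W) ≠ 0 := nonZeroDivisors.ne_zero b.2
  have hb' : algebraMap W K b ≠ 0 := fun h => hb0 (hWK (by rw [h, map_zero]))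
  have hγb : γ * algebraMap W K b =
      algebraMap W K a * (algebraMap W K (algebraMap V W π) ^ M * algebraMap W K δ ^ n) := by
    rw [IsFractionRing.mk'_eq_div, div_eq_div_iff hb'
      (mul_ne_zero (pow_ne_zero _ hπ') (pow_ne_zero _ hδ'))] at hmk
    exact hmk.symm
  have ha0 : a ≠ 0 := by
    rintro rfl
    rw [map_zero, zero_mul] at hγb
    exact mul_ne_zero hγ0 hb' hγb
  have hfree : ∀ ϖ : W, Prime ϖ → ¬ ϖ ^ (n + 1) ∣ a := by
    rintro ϖ hϖ ⟨c, hc⟩
    have hϖ' : algebraMap W K ϖ ≠ 0 := fun h => hϖ.ne_zero (hWK (by rw [h, map_zero]))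
    obtain ⟨w, hw⟩ := star (algebraMap W K b / (algebraMap W K ϖ * algebraMap W K δ))
      ⟨c * b ^ n, by
        have h1 : γ * (algebraMap W K b / (algebraMap W K ϖ * algebraMap W K δ)) ^ (n + 1) *
            algebraMap W K δ = (γ * algebraMap W K b) * algebraMap W K b ^ n /
              (algebraMap W K ϖ ^ (n + 1) * algebraMap W K δ ^ n) := by
          rw [div_pow, mul_pow]
          field_simp
          ring
        rw [h1, hγb, hc, div_eq_iff (mul_ne_zero (pow_ne_zero _ hϖ') (pow_ne_zero _ hδ'))]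
        simp only [map_mul, map_pow]
        ring⟩
    have h2 : (b : W) = ϖ * w := by
      apply hWK
      rw [map_mul, ← hw]
      field_simp
    have h3 : ϖ ∣ a := (dvd_pow_self ϖ (Nat.succ_ne_zero n)).trans ⟨c, hc⟩
    exact hϖ.not_isUnit (hab h3 ⟨w, h2⟩)
  have hρ' : ∀ ϖ : W, Prime ϖ → ϖ ∣ ρ := by
    intro ϖ hϖ
    have h1 : (Ideal.span {ϖ}).IsPrime := (Ideal.span_singleton_prime hϖ.ne_zero).2 hϖ
    have h2 := hρ (Ideal.span {ϖ}) h1 (fun h => hϖ.ne_zero (Ideal.span_singleton_eq_bot.1 h))
    exact Ideal.mem_span_singleton.1 h2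
  obtain ⟨e, he⟩ := dvd_pow_of_free ha0 hfree hρ'
  refine ⟨b * e, ?_⟩
  have h4 : algebraMap W K (b * e) * γ = algebraMap W K e * (γ * algebraMap W K b) := by
    rw [map_mul]
    ring
  rw [h4, hγb, mul_pow, he]
  simp only [map_mul, map_pow]
  ring

end Pool.Agent.H278.FT867
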