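import Pool.Agent.H979.GW.StmB

set_option autoImplicit false
set_option linter.unusedSectionVars false
set_option linter.unusedVariables false

open MeasureTheory ProbabilityTheory Filter Topology Set
open scoped ENNReal NNReal

/-!
# Task REM of the project GW (helper979)
-/

namespace Pool.Agent.H278

open Pool.Agent.H979.QIP (P K V bm A)
open Pool.Agent.H979.GW

theorem tru_sq_le {L x : ℝ} (hL : 0 ≤ L) (hx : 0 ≤ x) :
    (x - tru L x) ^ 2 ≤ if L < x then x ^ 2 else 0 := by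
  unfold tru
  by_cases h : L < x
  · rw [if_pos h, min_eq_left h.le, max_eq_right (by linarith)]
    nlinarith
  · rw [if_neg h, min_eq_right (not_lt.1 h), max_eq_right (by linarith), sub_self]
    norm_num

section

variable {Λ : Type} [DecidableEq Λ]

theorem VR_nonneg {ρ : ℝ} (hρ : 0 < ρ) (ch : List Λ → Finset Λ) (W : List Λ → ℝ) (L : ℝ)
    (v : List Λ) : 0 ≤ VR ρ ch W L v := by
  cases v with
  | nil =>
    unfold VR
    exact div_nonneg (Finset.sum_nonneg fun _ _ => sq_nonneg _) (by positivity)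
  | cons a u =>
    unfold VR
    exact div_nonneg (add_nonneg (Finset.sum_nonneg fun _ _ => sq_nonneg _)
      (mul_nonneg hρ.le (sq_nonneg _))) (by positivity)

/-- the tail of the square -/
noncomputable def gt (W : List Λ → ℝ) (L : ℝ) (v : List Λ) : ℝ := if L < W v then W v ^ 2 else 0

theorem gt_nonneg (W : List Λ → ℝ) (L : ℝ) (v : List Λ) : 0 ≤ gt W L v := by
  unfold gt; split_ifs <;> positivity

theorem VR_le {ρ : ℝ} (hρ : 0 < ρ) {ch : List Λ → Finset Λ} {W : List Λ → ℝ}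
    (hW : ∀ v, InT ch v → 0 ≤ W v) {L : ℝ} (hL : 0 ≤ L) {v : List Λ} (hv : InT ch v) :
    (ρ + (ch v).card) * VR ρ ch W L v ≤
      (ρ + 1) * (∑ c ∈ ch v, gt W L (c :: v) + ρ * gt W L v) := by
  have hs : ∀ (u : List Λ), InT ch u → ∑ c ∈ ch u, (W (c :: u) - tru L (W (c :: u))) ^ 2 ≤
      ∑ c ∈ ch u, gt W L (c :: u) := by
    intro u hu
    refine Finset.sum_le_sum fun c hc => ?_
    exact tru_sq_le hL (hW _ ⟨hu, hc⟩)
  have hg : ∀ u : List Λ, 0 ≤ ∑ c ∈ ch u, gt W L (c :: u) :=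
    fun u => Finset.sum_nonneg fun _ _ => gt_nonneg _ _ _
  cases v with
  | nil =>
    unfold VR
    have h1 := hs [] hv
    have h2 := hg []
    have h3 := gt_nonneg W L []
    by_cases hd : (ch []).card = 0
    · rw [hd]
      simp only [Nat.cast_zero, div_zero, mul_zero]
      positivity
    · have hd1 : (1 : ℝ) ≤ (ch []).card := by
        exact_mod_cast Nat.one_le_iff_ne_zero.2 hd
      have h4 : (ρ + (ch []).card : ℝ) * ((∑ c ∈ ch [], (W [c] - tru L (W [c])) ^ 2) /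
          (ch []).card) = ((ρ + (ch []).card) / (ch []).card) *
          ∑ c ∈ ch [], (W [c] - tru L (W [c])) ^ 2 := by ring
      rw [h4]
      have h5 : ((ρ + (ch []).card) / (ch []).card : ℝ) ≤ ρ + 1 := by
        rw [div_le_iff₀ (by linarith)]
        nlinarith
      have h6 : 0 ≤ ∑ c ∈ ch [], (W [c] - tru L (W [c])) ^ 2 :=
        Finset.sum_nonneg fun _ _ => sq_nonneg _
      calc _ ≤ (ρ + 1) * ∑ c ∈ ch [], (W [c] - tru L (W [c])) ^ 2 :=
            mul_le_mul_of_nonneg_right h5 h6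
        _ ≤ (ρ + 1) * (∑ c ∈ ch [], gt W L [c] + ρ * gt W L []) := by
            apply mul_le_mul_of_nonneg_left _ (by linarith)
            have : 0 ≤ ρ * gt W L [] := mul_nonneg hρ.le h3
            linarith
  | cons a u =>
    unfold VR
    have h1 := hs (a :: u) hv
    have h2 := hg (a :: u)
    have h3 := gt_nonneg W L (a :: u)
    have h4 : (W (a :: u) - tru L (W (a :: u))) ^ 2 ≤ gt W L (a :: u) := tru_sq_le hL (hW _ hv)
    have h5 : (0 : ℝ) < ρ + (ch (a :: u)).card := by positivity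
    rw [mul_div_cancel₀ _ h5.ne']
    have h6 : ρ * (W (a :: u) - tru L (W (a :: u))) ^ 2 ≤ ρ * gt W L (a :: u) :=
      mul_le_mul_of_nonneg_left h4 hρ.le
    have h7 : 0 ≤ ρ * gt W L (a :: u) := mul_nonneg hρ.le h3
    nlinarith

/-- the weighted level sums -/
noncomputable def lev (ρ : ℝ) (ch : List Λ → Finset Λ) (W : List Λ → ℝ) (L : ℝ) (k : ℕ) : ℝ :=
  ∑ v ∈ Lev ch k, (ρ⁻¹) ^ k * gt W L v

theorem lev_nonneg {ρ : ℝ} (hρ : 0 < ρ) (ch : List Λ → Finset Λ) (W : List Λ → ℝ) (L : ℝ)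
    (k : ℕ) : 0 ≤ lev ρ ch W L k :=
  Finset.sum_nonneg fun v _ => mul_nonneg (by positivity) (gt_nonneg _ _ _)

theorem inner_le {ρ : ℝ} (hρ : 0 < ρ) {ch : List Λ → Finset Λ} {W : List Λ → ℝ}
    (hW : ∀ v, InT ch v → 0 ≤ W v) {L : ℝ} (hL : 0 ≤ L) (k : ℕ) :
    ∑ v ∈ Lev ch k, (ρ⁻¹) ^ k * (ρ + (ch v).card) * VR ρ ch W L v ≤
      ρ * (ρ + 1) * (lev ρ ch W L (k + 1) + lev ρ ch W L k) := by
  have h1 : ∀ v ∈ Lev ch k, (ρ⁻¹) ^ k * (ρ + (ch v).card) * VR ρ ch W L v ≤
      (ρ⁻¹) ^ k * ((ρ + 1) * (∑ c ∈ ch v, gt W L (c :: v) + ρ * gt W L v)) := by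
    intro v hv
    rw [mul_assoc]
    exact mul_le_mul_of_nonneg_left (VR_le hρ hW hL (mem_Lev.1 hv).2) (by positivity)
  refine (Finset.sum_le_sum h1).trans (le_of_eq ?_)
  have h2 : lev ρ ch W L (k + 1) = ∑ v ∈ Lev ch k, ∑ c ∈ ch v, (ρ⁻¹) ^ (k + 1) * gt W L (c :: v) :=
    sum_Lev_succ ch k _
  rw [h2]
  unfold lev
  rw [← Finset.sum_add_distrib, Finset.mul_sum]
  refine Finset.sum_congr rfl fun v _ => ?_
  rw [← Finset.mul_sum, pow_succ]
  field_simp

variable [Countable Λ]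

theorem markov {ρ : ℝ} [h1 : Fact (1 < ρ)] {ch : List Λ → Finset Λ} (h : (ch []).card ≠ 0)
    {F f : List Λ → ℝ} (hf : ∀ v, 0 ≤ f v) {δ X η' B : ℝ} (hδ : 0 < δ) {n : ℕ} (hn : 1 ≤ n)
    (hfF : ∀ v, (v.length : ℝ) ≤ B → F v ≤ f v)
    (hX : ∑ s ∈ Finset.range n, (Pop ρ ch)^[s] f [] ≤ X) (hη : X ≤ η' * (δ * n)) :
    P (stp ρ ch) [] {w | (∀ s ≤ n, ((w s).length : ℝ) ≤ B) ∧
      δ * n < ∑ s ∈ Finset.range n, F (w s)} ≤ ENNReal.ofReal η' := by
  have hn0 : (0 : ℝ) < n := by exact_mod_cast hn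
  have hδn : 0 < δ * n := mul_pos hδ hn0
  have hsub : {w : ℕ → List Λ | (∀ s ≤ n, ((w s).length : ℝ) ≤ B) ∧
      δ * n < ∑ s ∈ Finset.range n, F (w s)} ⊆
      {w | ENNReal.ofReal (δ * n) ≤ ∑ s ∈ Finset.range n, ENNReal.ofReal (f (w s))} := by
    rintro w ⟨hw1, hw2⟩
    have h3 : ∑ s ∈ Finset.range n, F (w s) ≤ ∑ s ∈ Finset.range n, f (w s) :=
      Finset.sum_le_sum fun s hs => hfF _ (hw1 s (Finset.mem_range.1 hs).le)
    show ENNReal.ofReal (δ * n) ≤ _
    rw [← ENNReal.ofReal_sum_of_nonneg fun s _ => hf _]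
    exact ENNReal.ofReal_le_ofReal (hw2.le.trans h3)
  have hmeas : ∀ s : ℕ, Measurable (fun w : ℕ → List Λ => ENNReal.ofReal (f (w s))) := fun s =>
    (measurable_from_top (f := fun v : List Λ => ENNReal.ofReal (f v))).comp (measurable_pi_apply s)
  refine (measure_mono hsub).trans ?_
  refine (meas_ge_le_lintegral_div
    (Finset.measurable_sum _ fun s _ => hmeas s).aemeasurable
    (by rw [Ne, ENNReal.ofReal_eq_zero, not_le]; exact hδn) ENNReal.ofReal_ne_top).trans ?_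
  rw [lintegral_finsetSum _ fun s _ => hmeas s]
  have h4 : ∑ s ∈ Finset.range n, ∫⁻ w, ENNReal.ofReal (f (w s)) ∂(P (stp ρ ch) []) =
      ENNReal.ofReal (∑ s ∈ Finset.range n, (Pop ρ ch)^[s] f []) := by
    rw [ENNReal.ofReal_sum_of_nonneg
      fun s _ => Pop_iter_nonneg (zero_lt_one.trans h1.out) ch hf s []]
    exact Finset.sum_congr rfl fun s _ => coord h hf s []
  rw [h4, ← ENNReal.ofReal_div_of_pos hδn]
  apply ENNReal.ofReal_le_ofReal
  rw [div_le_iff₀ hδn]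
  exact hX.trans hη

end

theorem gw_rem (hocc : S_OCC) : S_REM := by
  intro Λ _ _ ρ hρf ch W cL σ2 η hreg A δ η' hA hδ hη'
  obtain ⟨C, hC, hocc⟩ := hocc Λ ρ ch W cL σ2 η hreg
  obtain ⟨K, hK⟩ := hreg.sq
  have hρ1 : 1 < ρ := hreg.rho
  have hρ : 0 < ρ := zero_lt_one.trans hρ1
  have hK0 : 0 ≤ K := (Finset.sum_nonneg fun v _ => by positivity).trans (hK 0)
  have hroot : (ch []).card ≠ 0 := by
    intro h0
    have h1 := hreg.W_rec [] trivial
    rw [Finset.card_eq_zero.1 h0, Finset.sum_empty] at h1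
    have := hreg.W_root
    nlinarith
  have hD0 : 0 ≤ C * (ρ * (ρ + 1)) := by positivity
  obtain ⟨D, hD⟩ : ∃ D, D = C * (ρ * (ρ + 1)) := ⟨_, rfl⟩
  rw [← hD] at hD0
  obtain ⟨ε, hε⟩ : ∃ ε, ε = η' * δ / (4 * A * (D + 1)) := ⟨_, rfl⟩
  have hε0 : 0 < ε := by rw [hε]; positivity
  have hεD : 2 * ε * A * D ≤ η' * δ / 2 := by
    have h1 : 2 * ε * A * D = η' * δ / 2 * (D / (D + 1)) := by
      rw [hε]; field_simp; ring
    rw [h1]
    have h2 : D / (D + 1) ≤ 1 := by rw [div_le_one (by linarith)]; linarith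
    have h3 : 0 ≤ η' * δ / 2 := by positivity
    nlinarith
  obtain ⟨M, k₀, hM⟩ := hreg.ui ε hε0
  refine ⟨⌈M⌉₊, fun L hL => ?_⟩
  have hML : M ≤ (L : ℝ) := (Nat.le_ceil M).trans (by exact_mod_cast hL)
  have hL0 : (0 : ℝ) ≤ L := Nat.cast_nonneg L
  -- bounds for the level sums
  have ha1 : ∀ k, lev ρ ch W L k ≤ K := by
    intro k
    refine (Finset.sum_le_sum fun v _ => ?_).trans (hK k)
    apply mul_le_mul_of_nonneg_left _ (by positivity)
    unfold gt
    split_ifs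
    · exact le_rfl
    · positivity
  have ha2 : ∀ k, k₀ ≤ k → lev ρ ch W L k ≤ ε := by
    intro k hk
    refine (Finset.sum_le_sum fun v _ => ?_).trans (hM k hk)
    apply mul_le_mul_of_nonneg_left _ (by positivity)
    unfold gt
    by_cases h1 : (L : ℝ) < W v
    · rw [if_pos h1, if_pos (hML.trans_lt h1)]
    · rw [if_neg h1]
      split_ifs <;> positivity
  have ha3 : ∀ k, lev ρ ch W L (k + 1) + lev ρ ch W L k ≤ (if k < k₀ then 2 * K else 0) + 2 * ε := by
    intro k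
    by_cases hk : k < k₀
    · rw [if_pos hk]
      have := ha1 k
      have := ha1 (k + 1)
      linarith
    · rw [if_neg hk]
      have := ha2 k (not_lt.1 hk)
      have := ha2 (k + 1) (by omega)
      linarith
  obtain ⟨B, hB⟩ : ∃ B, B = 2 * K * k₀ + 2 * ε := ⟨_, rfl⟩
  have hB0 : 0 ≤ B := by rw [hB]; positivity
  have hlarge : ∀ᶠ n : ℕ in atTop, D * B ≤ η' * δ / 2 * √(n : ℝ) := by
    have h1 : Tendsto (fun n : ℕ => η' * δ / 2 * √(n : ℝ)) atTop atTop :=
      (Real.tendsto_sqrt_atTop.comp tendsto_natCast_atTop_atTop).const_mul_atTop (by positivity)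
    exact h1.eventually_ge_atTop _
  filter_upwards [hlarge, eventually_ge_atTop 1] with n hn hn1
  have hs0 : 0 ≤ √(n : ℝ) := Real.sqrt_nonneg _
  have hss : √(n : ℝ) * √(n : ℝ) = n := Real.mul_self_sqrt (Nat.cast_nonneg n)
  let f : List Λ → ℝ := fun v => if (v.length : ℝ) ≤ A * √n then VR ρ ch W L v else 0
  have hf : ∀ v, 0 ≤ f v := by
    intro v
    simp only [f]
    split_ifs
    · exact VR_nonneg hρ ch W L v
    · exact le_rfl
  have hsum : ∑ k ∈ Finset.range n, ∑ v ∈ Lev ch k, (ρ⁻¹) ^ k * (ρ + (ch v).card) * f v ≤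
      ρ * (ρ + 1) * (B + 2 * ε * (A * √n)) := by
    have h1 : ∀ k ∈ Finset.range n, ∑ v ∈ Lev ch k, (ρ⁻¹) ^ k * (ρ + (ch v).card) * f v ≤
        if (k : ℝ) ≤ A * √n then ρ * (ρ + 1) * ((if k < k₀ then 2 * K else 0) + 2 * ε)
          else 0 := by
      intro k _
      have h2 : ∑ v ∈ Lev ch k, (ρ⁻¹) ^ k * (ρ + (ch v).card) * f v =
          if (k : ℝ) ≤ A * √n then
            ∑ v ∈ Lev ch k, (ρ⁻¹) ^ k * (ρ + (ch v).card) * VR ρ ch W L v else 0 := by
        by_cases hk : (k : ℝ) ≤ A * √n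
        · rw [if_pos hk]
          refine Finset.sum_congr rfl fun v hv => ?_
          simp only [f]
          rw [(mem_Lev.1 hv).1, if_pos hk]
        · rw [if_neg hk]
          refine Finset.sum_eq_zero fun v hv => ?_
          simp only [f]
          rw [(mem_Lev.1 hv).1, if_neg hk, mul_zero]
      rw [h2]
      by_cases hk : (k : ℝ) ≤ A * √n
      · rw [if_pos hk, if_pos hk]
        exact (inner_le hρ hreg.W_nonneg hL0 k).trans
          (mul_le_mul_of_nonneg_left (ha3 k) (by positivity))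
      · rw [if_neg hk, if_neg hk]
    refine (Finset.sum_le_sum h1).trans ?_
    rw [← Finset.sum_filter]
    have hsub : (Finset.range n).filter (fun k : ℕ => (k : ℝ) ≤ A * √n) ⊆
        Finset.range (⌊A * √(n : ℝ)⌋₊ + 1) := by
      intro k hk
      rw [Finset.mem_filter] at hk
      rw [Finset.mem_range, Nat.lt_succ_iff]
      exact Nat.le_floor hk.2
    refine (Finset.sum_le_sum_of_subset_of_nonneg hsub fun k _ _ => ?_).trans ?_
    · split_ifs <;> positivity
    rw [← Finset.mul_sum, Finset.sum_add_distrib, Finset.sum_const, Finset.card_range, nsmul_eq_mul]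
    apply mul_le_mul_of_nonneg_left _ (by positivity)
    have h3 : ∑ k ∈ Finset.range (⌊A * √(n : ℝ)⌋₊ + 1), (if k < k₀ then 2 * K else 0) ≤
        2 * K * k₀ := by
      rw [← Finset.sum_filter, Finset.sum_const, nsmul_eq_mul]
      have h4 : ((Finset.range (⌊A * √(n : ℝ)⌋₊ + 1)).filter (fun k => k < k₀)).card ≤ k₀ := by
        have h5 : (Finset.range (⌊A * √(n : ℝ)⌋₊ + 1)).filter (fun k => k < k₀) ⊆
            Finset.range k₀ := by
          intro k hk
          exact Finset.mem_range.2 (Finset.mem_filter.1 hk).2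
        simpa using Finset.card_le_card h5
      have h6 : (((Finset.range (⌊A * √(n : ℝ)⌋₊ + 1)).filter (fun k => k < k₀)).card : ℝ) ≤ k₀ := by
        exact_mod_cast h4
      nlinarith
    have h7 : ((⌊A * √(n : ℝ)⌋₊ + 1 : ℕ) : ℝ) ≤ A * √n + 1 := by
      push_cast
      have := Nat.floor_le (show 0 ≤ A * √(n : ℝ) by positivity)
      linarith
    have h8 : ((⌊A * √(n : ℝ)⌋₊ + 1 : ℕ) : ℝ) * (2 * ε) ≤ (A * √n + 1) * (2 * ε) :=
      mul_le_mul_of_nonneg_right h7 (by positivity)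
    rw [hB]
    nlinarith
  refine markov hroot hf hδ hn1 (X := C * √n * (ρ * (ρ + 1) * (B + 2 * ε * (A * √n)))) ?_ ?_ ?_
  · intro v hv
    simp only [f]
    rw [if_pos hv]
  · refine ((hocc f hf).1 n hn1).trans ?_
    exact mul_le_mul_of_nonneg_left hsum (by positivity)
  · have h1 : C * √(n : ℝ) * (ρ * (ρ + 1) * (B + 2 * ε * (A * √(n : ℝ)))) =
        D * B * √(n : ℝ) + 2 * ε * A * D * n := by
      rw [hD]
      linear_combination (2 * ε * A * (C * (ρ * (ρ + 1)))) * hss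
    rw [h1]
    have h2 : D * B * √(n : ℝ) ≤ η' * δ / 2 * n := by
      have := mul_le_mul_of_nonneg_right hn hs0
      rw [mul_assoc (η' * δ / 2), hss] at this
      exact this
    have h3 : 2 * ε * A * D * n ≤ η' * δ / 2 * n :=
      mul_le_mul_of_nonneg_right hεD (Nat.cast_nonneg n)
    linarith

end Pool.Agent.H278
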