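import Mathlib
import Pool.Agent.H576.RD.Stm

/-!
# Project RD (helper576), tasks GAM and T7: the rotation group of a group without `-1`
-/

set_option autoImplicit false

namespace Pool.Agent.H278

open Pool.Agent.H576.RD

namespace RDGAM

theorem dt_mul (g h : LI) : dt (g * h) = dt g * dt h := by
  unfold dt
  rw [← LinearMap.det_comp]
  rfl

theorem dt_one : dt (1 : LI) = 1 := by
  unfold dt
  exact LinearMap.det_id

theorem dt_negI : dt negI = -1 := by
  unfold dt
  have h : ((negI.toLinearEquiv : E ≃ₗ[ℝ] E) : E →ₗ[ℝ] E) = (-1 : ℝ) • LinearMap.id := by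
    ext v : 1
    show negI v = (-1 : ℝ) • v
    rw [negI_apply, neg_one_smul]
  rw [h, LinearMap.det_smul, LinearMap.det_id, finrank_euclideanSpace_fin]
  norm_num

theorem negI_mul_self : negI * negI = (1 : LI) := by
  ext v : 1
  show negI (negI v) = v
  rw [negI_apply, negI_apply, neg_neg]

theorem negI_comm (g : LI) : negI * g = g * negI := by
  ext v : 1
  show negI (g v) = g (negI v)
  rw [negI_apply, negI_apply, map_neg]

theorem negI_negI_mul (g : LI) : negI * (negI * g) = g := by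
  rw [← mul_assoc, negI_mul_self, one_mul]

theorem negI_inv : (negI : LI)⁻¹ = negI := inv_eq_of_mul_eq_one_left negI_mul_self

theorem dt_inv {g : LI} (h : dt g = 1) : dt g⁻¹ = 1 := by
  have h1 := dt_mul g g⁻¹
  rw [mul_inv_cancel, dt_one, h, one_mul] at h1
  exact h1.symm

theorem dt_pow (g : LI) (n : ℕ) : dt (g ^ n) = dt g ^ n := by
  induction n with
  | zero => rw [pow_zero, pow_zero, dt_one]
  | succ n ih => rw [pow_succ, dt_mul, ih, pow_succ]

/-- the determinant of an element of a finite group is `1` or `-1` -/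
theorem dt_cases {G : Subgroup LI} [Finite G] {g : LI} (hg : g ∈ G) : dt g = 1 ∨ dt g = -1 := by
  obtain ⟨n, hn, h⟩ := (isOfFinOrder_iff_pow_eq_one.1
    (isOfFinOrder_of_finite (⟨g, hg⟩ : G)))
  have h1 : g ^ n = 1 := congrArg (Subtype.val) h
  have h2 : |dt g| ^ n = 1 := by
    rw [← abs_pow, ← dt_pow, h1, dt_one, abs_one]
  have h3 : |dt g| = 1 := (pow_eq_one_iff_of_nonneg (abs_nonneg _) hn.ne').1 h2
  rcases abs_choice (dt g) with h4 | h4
  · exact Or.inl (h4 ▸ h3)
  · right
    rw [h4] at h3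
    linarith

/-- the rotation group -/
noncomputable def Gam (G : Subgroup LI) : Subgroup LI where
  carrier := {g | dt g = 1 ∧ (g ∈ G ∨ negI * g ∈ G)}
  mul_mem' := by
    rintro a b ⟨ha, ha'⟩ ⟨hb, hb'⟩
    refine ⟨by rw [dt_mul, ha, hb, one_mul], ?_⟩
    rcases ha' with ha' | ha'
    · rcases hb' with hb' | hb'
      · exact Or.inl (G.mul_mem ha' hb')
      · right
        have h1 : negI * (a * b) = a * (negI * b) := by
          rw [← mul_assoc, negI_comm a, mul_assoc]
        rw [h1]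
        exact G.mul_mem ha' hb'
    · rcases hb' with hb' | hb'
      · right
        rw [← mul_assoc]
        exact G.mul_mem ha' hb'
      · left
        have h1 : a * b = (negI * a) * (negI * b) := by
          rw [negI_comm a, mul_assoc, negI_negI_mul]
        rw [h1]
        exact G.mul_mem ha' hb'
  one_mem' := ⟨dt_one, Or.inl G.one_mem⟩
  inv_mem' := by
    rintro a ⟨ha, ha'⟩
    refine ⟨dt_inv ha, ?_⟩
    rcases ha' with ha' | ha'
    · exact Or.inl (G.inv_mem ha')
    · right
      have h1 : negI * a⁻¹ = (negI * a)⁻¹ := by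
        rw [negI_comm a, mul_inv_rev, negI_inv]
      rw [h1]
      exact G.inv_mem ha'

theorem mem_Gam (G : Subgroup LI) (g : LI) :
    g ∈ Gam G ↔ dt g = 1 ∧ (g ∈ G ∨ negI * g ∈ G) := Iff.rfl

theorem toGam_mem {G : Subgroup LI} [Finite G] {g : LI} (hg : g ∈ G) :
    (dt g = 1 → g ∈ Gam G) ∧ (dt g ≠ 1 → negI * g ∈ Gam G) := by
  refine ⟨fun h => ⟨h, Or.inl hg⟩, fun h => ⟨?_, Or.inr (by rwa [negI_negI_mul])⟩⟩
  rcases dt_cases hg with h1 | h1
  · exact absurd h1 h
  · rw [dt_mul, dt_negI, h1]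
    norm_num

open Classical in
/-- the bijection of `G` with the rotation group -/
noncomputable def eqv (G : Subgroup LI) [Finite G] (hG : negI ∉ G) : G ≃ Gam G where
  toFun g := if h : dt g.1 = 1 then ⟨g.1, (toGam_mem g.2).1 h⟩
    else ⟨negI * g.1, (toGam_mem g.2).2 h⟩
  invFun γ := if h : γ.1 ∈ G then ⟨γ.1, h⟩
    else ⟨negI * γ.1, ((mem_Gam G γ.1).1 γ.2).2.resolve_left h⟩
  left_inv := by
    rintro ⟨g, hg⟩
    by_cases h : dt g = 1
    · simp only [dif_pos h, dif_pos hg]
    · have h1 : negI * g ∉ G := by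
        intro h2
        apply hG
        have h3 := G.mul_mem h2 (G.inv_mem hg)
        rwa [mul_assoc, mul_inv_cancel, mul_one] at h3
      simp only [dif_neg h, dif_neg h1]
      exact Subtype.ext (negI_negI_mul g)
  right_inv := by
    rintro ⟨γ, hγ⟩
    have h0 : dt γ = 1 := hγ.1
    by_cases h : γ ∈ G
    · simp only [dif_pos h, dif_pos h0]
    · have h1 : ¬ dt (negI * γ) = 1 := by
        rw [dt_mul, dt_negI, h0]
        norm_num
      simp only [dif_neg h, dif_neg h1]
      exact Subtype.ext (negI_negI_mul γ)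

end RDGAM

open RDGAM in
theorem rd_gam : S_GAM := by
  intro G hG hI hn
  refine ⟨Gam G, Finite.of_equiv G (eqv G hn), fun g hg => hg.1, ?_,
    (Nat.card_congr (eqv G hn)).symm, mem_Gam G⟩
  intro a ha
  obtain ⟨g, hg, h1, h2⟩ := hI a ha
  by_cases h : dt g = 1
  · exact ⟨g, (toGam_mem hg).1 h, h1, h2⟩
  · refine ⟨negI * g, (toGam_mem hg).2 h, ?_, ?_⟩
    · show negI (g a) ≠ a
      rw [negI_apply]
      intro h3
      exact h2 (neg_eq_iff_eq_neg.1 h3)
    · show negI (g a) ≠ -a
      rw [negI_apply]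
      intro h3
      exact h1 (neg_injective h3)

theorem rd_t7 (h1 : S_GAM) (h2 : S_POLE) : S_T7 := by
  intro G hG hI hn
  obtain ⟨Γ, hΓ, hd, hI', hc, _⟩ := h1 G hG hI hn
  rw [← hc]
  rcases h2 Γ hΓ hd hI' with h | h | h
  · exact Or.inl h
  · exact Or.inr (Or.inl h.1)
  · exact Or.inr (Or.inr h.1)

end Pool.Agent.H278
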