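import Pool.Agent.H770.GS.TB

/-!
# Project TB: `HH ≥ 0` (`S_H`)
-/

set_option autoImplicit false

open MeasureTheory Set intervalIntegral Filter Topology

namespace Pool.Agent.H278.TBH

open Pool.Agent.H770.GS

lemma mono_aux {f f' : ℝ → ℝ} {a b : ℝ} (hab : a ≤ b)
    (h : ∀ x ∈ Icc a b, HasDerivAt f (f' x) x) (h0 : ∀ x ∈ Icc a b, 0 ≤ f' x) : f a ≤ f b := by
  have hm : MonotoneOn f (Icc a b) := by
    refine monotoneOn_of_deriv_nonneg (convex_Icc a b)
      (fun x hx => (h x hx).continuousAt.continuousWithinAt) ?_ ?_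
    · intro x hx
      exact (h x (interior_subset hx)).differentiableAt.differentiableWithinAt
    · intro x hx
      rw [(h x (interior_subset hx)).deriv]
      exact h0 x (interior_subset hx)
  exact hm (left_mem_Icc.2 hab) (right_mem_Icc.2 hab) hab

lemma exp_deriv (x : ℝ) :
    HasDerivAt (fun q : ℝ => Real.exp (-q ^ 2)) (-(2 * x) * Real.exp (-x ^ 2)) x := by
  have h := ((hasDerivAt_pow 2 x).fun_neg).exp
  refine h.congr_deriv ?_
  simp
  ring

lemma I2_ge {q : ℝ} (hq : 0 ≤ q) : 2 * q * Real.exp (-q ^ 2) ≤ I2 q := by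
  have h := mono_aux (f := fun x => I2 x - 2 * x * Real.exp (-x ^ 2))
    (f' := fun x => 4 * x ^ 2 * Real.exp (-x ^ 2)) hq
    (fun x _ => by
      have h1 := (I2_deriv x).sub (((hasDerivAt_id x).const_mul 2).mul (exp_deriv x))
      refine h1.congr_deriv ?_
      simp only [id]
      ring)
    (fun x _ => by positivity)
  simp only [I2_zero] at h
  linarith

lemma I2_D {q : ℝ} (hq : 0 ≤ q) : (1 - 2 * q ^ 2 / 3) * I2 q ≤ 2 * q * Real.exp (-q ^ 2) := by
  have h := mono_aux (f := fun x => 2 * x * Real.exp (-x ^ 2) - (1 - 2 * x ^ 2 / 3) * I2 x)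
    (f' := fun x => 4 * x / 3 * (I2 x - 2 * x * Real.exp (-x ^ 2))) hq
    (fun x _ => by
      have h2 : HasDerivAt (fun x : ℝ => 1 - 2 * x ^ 2 / 3) (-(4 * x / 3)) x := by
        have := (((hasDerivAt_pow 2 x).const_mul 2).div_const 3).const_sub 1
        refine this.congr_deriv ?_
        simp
        ring
      have h1 := (((hasDerivAt_id x).const_mul 2).mul (exp_deriv x)).sub (h2.mul (I2_deriv x))
      refine h1.congr_deriv ?_
      simp only [id]
      ring)
    (fun x hx => by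
      have h1 := I2_ge hx.1
      have h2 := hx.1
      have h3 : 0 ≤ I2 x - 2 * x * Real.exp (-x ^ 2) := by linarith
      positivity)
  simp only [I2_zero] at h
  linarith

lemma I2_pos {q : ℝ} (hq : 0 < q) : 0 < I2 q :=
  lt_of_lt_of_le (by positivity) (I2_ge hq.le)

lemma I2_ratio {p q : ℝ} (hp : 0 < p) (hpq : p ≤ q) :
    I2 p / p * Real.exp (p ^ 2 / 3) ≤ I2 q / q * Real.exp (q ^ 2 / 3) := by
  refine mono_aux (f := fun x => I2 x / x * Real.exp (x ^ 2 / 3))
    (f' := fun x => Real.exp (x ^ 2 / 3) / x ^ 2 *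
      (2 * x * Real.exp (-x ^ 2) - (1 - 2 * x ^ 2 / 3) * I2 x)) hpq ?_ ?_
  · intro x hx
    have hx0 : x ≠ 0 := (hp.trans_le hx.1).ne'
    have h2 : HasDerivAt (fun x : ℝ => Real.exp (x ^ 2 / 3))
        (2 * x / 3 * Real.exp (x ^ 2 / 3)) x := by
      have := ((hasDerivAt_pow 2 x).div_const 3).exp
      refine this.congr_deriv ?_
      simp
      ring
    have h1 := ((I2_deriv x).fun_div (hasDerivAt_id x) hx0).fun_mul h2
    refine h1.congr_deriv ?_
    simp only [id]
    field_simp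
    ring
  · intro x hx
    have h1 := I2_D (hp.trans_le hx.1).le
    have h3 : 0 ≤ 2 * x * Real.exp (-x ^ 2) - (1 - 2 * x ^ 2 / 3) * I2 x := by linarith
    positivity

/-- the comparison function -/
noncomputable def KK (r β a : ℝ) : ℝ := fL r a * W (r - β * a) / (2 * r - a)

lemma KK_nonneg {r β a : ℝ} (ha : a < 2 * r) : 0 ≤ KK r β a := by
  unfold KK fL W
  have h1 : 0 < r - a / 2 := by linarith
  have h2 := I2_pos h1
  have h3 : 0 < 2 * r - a := by linarith
  positivity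

/-- the lower bound of the first term -/
lemma key1 {r β a : ℝ} (hβ : 0 ≤ β) (hβ1 : β ≤ 1) (ha : 0 ≤ a) (ha2 : a < 2 * r) :
    KK r β a * (β * (2 * r - β * a) * (1 + 2 / 3 * (1 - β) * a * (r - (1 + β) * a / 4))) ≤
      β * fL r (β * a) * W (r - a) := by
  set p : ℝ := r - a / 2 with hp
  set q : ℝ := r - β * a / 2 with hq
  have hp0 : 0 < p := by linarith
  have hpq : p ≤ q := by
    have : β * a ≤ 1 * a := mul_le_mul_of_nonneg_right hβ1 ha
    linarith
  have hq0 : 0 < q := hp0.trans_le hpq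
  set X : ℝ := 2 / 3 * (1 - β) * a * (r - (1 + β) * a / 4) with hX
  have hrat := I2_ratio hp0 hpq
  have hIp := I2_pos hp0
  -- the value of the comparison function
  have e1 : KK r β a = Real.exp (-a ^ 2 / 4) * I2 p * Real.exp (-(r - β * a) ^ 2 / 2) / (2 * p) := by
    unfold KK fL W
    rw [show 2 * r - a = 2 * p by rw [hp]; ring]
  have e2 : 2 * r - β * a = 2 * q := by rw [hq]; ring
  have e3 : fL r (β * a) = Real.exp (-(β * a) ^ 2 / 4) * I2 q := rfl
  have e4 : I2 p / p * q * Real.exp ((p ^ 2 - q ^ 2) / 3) ≤ I2 q := by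
    have h1 : Real.exp ((p ^ 2 - q ^ 2) / 3) = Real.exp (p ^ 2 / 3) * Real.exp (-(q ^ 2 / 3)) := by
      rw [← Real.exp_add]
      congr 1
      ring
    have h2 : Real.exp (q ^ 2 / 3) * Real.exp (-(q ^ 2 / 3)) = 1 := by
      rw [← Real.exp_add]
      simp
    calc I2 p / p * q * Real.exp ((p ^ 2 - q ^ 2) / 3)
        = (I2 p / p * Real.exp (p ^ 2 / 3)) * (q * Real.exp (-(q ^ 2 / 3))) := by rw [h1]; ring
      _ ≤ (I2 q / q * Real.exp (q ^ 2 / 3)) * (q * Real.exp (-(q ^ 2 / 3))) :=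
          mul_le_mul_of_nonneg_right hrat (by positivity)
      _ = I2 q * (Real.exp (q ^ 2 / 3) * Real.exp (-(q ^ 2 / 3))) := by
          field_simp
      _ = I2 q := by rw [h2, mul_one]
  have e5 : Real.exp ((p ^ 2 - q ^ 2) / 3) * (Real.exp (-(β * a) ^ 2 / 4) *
      Real.exp (-(r - a) ^ 2 / 2)) =
      Real.exp (-a ^ 2 / 4) * Real.exp (-(r - β * a) ^ 2 / 2) * Real.exp X := by
    rw [← Real.exp_add, ← Real.exp_add, ← Real.exp_add, ← Real.exp_add]
    congr 1
    rw [hX, hp, hq]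
    ring
  have e6 : 1 + X ≤ Real.exp X := by
    have := Real.add_one_le_exp X
    linarith
  unfold W at *
  rw [e1, e2, e3]
  calc Real.exp (-a ^ 2 / 4) * I2 p * Real.exp (-(r - β * a) ^ 2 / 2) / (2 * p) *
        (β * (2 * q) * (1 + X))
      = β * (I2 p / p * q) * (Real.exp (-a ^ 2 / 4) * Real.exp (-(r - β * a) ^ 2 / 2)) *
          (1 + X) := by
        field_simp
    _ ≤ β * (I2 p / p * q) * (Real.exp (-a ^ 2 / 4) * Real.exp (-(r - β * a) ^ 2 / 2)) *
          Real.exp X := mul_le_mul_of_nonneg_left e6 (by positivity)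
    _ = β * (I2 p / p * q * Real.exp ((p ^ 2 - q ^ 2) / 3)) * (Real.exp (-(β * a) ^ 2 / 4) *
          Real.exp (-(r - a) ^ 2 / 2)) := by
        rw [mul_assoc, ← e5]
        ring
    _ ≤ β * I2 q * (Real.exp (-(β * a) ^ 2 / 4) * Real.exp (-(r - a) ^ 2 / 2)) := by
        refine mul_le_mul_of_nonneg_right ?_ (by positivity)
        exact mul_le_mul_of_nonneg_left e4 hβ
    _ = β * (Real.exp (-(β * a) ^ 2 / 4) * I2 q) * Real.exp (-(r - a) ^ 2 / 2) := by ring

/-- the logarithmic correction -/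
noncomputable def TT (r a : ℝ) : ℝ := 1 / (2 * r - a) - eL r a / fL r a

lemma TT_bounds {r a : ℝ} (ha2 : a < 2 * r) : 0 ≤ TT r a ∧ TT r a ≤ (r - a / 2) / 3 := by
  set p : ℝ := r - a / 2 with hp
  have hp0 : 0 < p := by linarith
  have hIp := I2_pos hp0
  have h1 : eL r a / fL r a = Real.exp (-p ^ 2) / I2 p := by
    have h2 : eL r a = Real.exp (-a ^ 2 / 4) * Real.exp (-p ^ 2) := by
      unfold eL
      rw [← Real.exp_add]
      congr 1
      rw [hp]
      ring
    have h3 : fL r a = Real.exp (-a ^ 2 / 4) * I2 p := rfl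
    rw [h2, h3, mul_div_mul_left _ _ (Real.exp_pos _).ne']
  have h4 : TT r a = 1 / (2 * p) - Real.exp (-p ^ 2) / I2 p := by
    unfold TT
    rw [h1, show 2 * r - a = 2 * p by rw [hp]; ring]
  have h5 := I2_ge hp0.le
  have h6 := I2_D hp0.le
  rw [h4]
  constructor
  · rw [sub_nonneg, div_le_div_iff₀ hIp (by positivity)]
    linarith
  · rw [div_sub_div _ _ (by positivity) hIp.ne', div_le_div_iff₀ (by positivity) (by norm_num)]
    nlinarith

/-- the polynomial inequality -/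
lemma key3 {r β a T : ℝ} (hβ : 7 / 10 ≤ β) (hβ1 : β ≤ 1) (ha2 : a < 2 * r) (hT0 : 0 ≤ T)
    (hT1 : T ≤ (r - a / 2) / 3) :
    0 ≤ 2 / 3 * β * (2 * r - β * a) * (r - (1 + β) * a / 4) +
      ((1 + β) * a / 3 - r) * (a / 2 - T - β * (r - β * a)) := by
  set E0 : ℝ := (1 + β) * (1 / 6 + β ^ 2 / 2) * a ^ 2 - (1 / 2 + 2 / 3 * β + 7 / 3 * β ^ 2) * a * r +
    7 / 3 * β * r ^ 2 with hE0
  set E1 : ℝ := (1 + β) * (2 / 9 + β ^ 2 / 2) * a ^ 2 -
    (7 / 9 + 7 / 9 * β + 7 / 3 * β ^ 2) * a * r + (7 / 3 * β + 1 / 3) * r ^ 2 with hE1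
  have hb2 : 0 ≤ (1 - β) * (β - 7 / 10) := mul_nonneg (by linarith) (by linarith)
  have hP : 28 * β ^ 4 - 56 * β ^ 3 + 44 * β ^ 2 - 32 * β + 9 ≤ 0 := by
    have h1 : 0 ≤ β ^ 3 * (1 - β) := mul_nonneg (by positivity) (by linarith)
    have h2 : 0 ≤ β * ((1 - β) * (β - 7 / 10)) := mul_nonneg (by linarith) hb2
    nlinarith
  have hQ : 0 ≤ -63 * β ^ 4 + 138 * β ^ 3 - 121 * β ^ 2 + 94 * β - 25 := by
    have h1 : 0 ≤ β ^ 3 * (1 - β) := mul_nonneg (by positivity) (by linarith)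
    have h2 : 0 ≤ β * ((1 - β) * (β - 7 / 10)) := mul_nonneg (by linarith) hb2
    have h3 : 0 ≤ β ^ 2 * ((1 - β) * (β - 7 / 10)) := mul_nonneg (by positivity) hb2
    nlinarith
  have h0 : 0 ≤ E0 := by
    have hA : 0 < (1 + β) * (1 / 6 + β ^ 2 / 2) := by positivity
    have h1 : 4 * ((1 + β) * (1 / 6 + β ^ 2 / 2)) * E0 =
        (2 * ((1 + β) * (1 / 6 + β ^ 2 / 2)) * a - (1 / 2 + 2 / 3 * β + 7 / 3 * β ^ 2) * r) ^ 2 +
        -(28 * β ^ 4 - 56 * β ^ 3 + 44 * β ^ 2 - 32 * β + 9) / 36 * r ^ 2 := by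
      rw [hE0]
      ring
    have h2 : 0 ≤ 4 * ((1 + β) * (1 / 6 + β ^ 2 / 2)) * E0 := by
      rw [h1]
      have : 0 ≤ -(28 * β ^ 4 - 56 * β ^ 3 + 44 * β ^ 2 - 32 * β + 9) / 36 := by linarith
      positivity
    exact nonneg_of_mul_nonneg_right h2 (by positivity)
  have h1 : 0 ≤ E1 := by
    have hA : 0 < (1 + β) * (2 / 9 + β ^ 2 / 2) := by positivity
    have h1 : 4 * ((1 + β) * (2 / 9 + β ^ 2 / 2)) * E1 =
        (2 * ((1 + β) * (2 / 9 + β ^ 2 / 2)) * a - (7 / 9 + 7 / 9 * β + 7 / 3 * β ^ 2) * r) ^ 2 +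
        (-63 * β ^ 4 + 138 * β ^ 3 - 121 * β ^ 2 + 94 * β - 25) / 81 * r ^ 2 := by
      rw [hE1]
      ring
    have h2 : 0 ≤ 4 * ((1 + β) * (2 / 9 + β ^ 2 / 2)) * E1 := by
      rw [h1]
      positivity
    exact nonneg_of_mul_nonneg_right h2 (by positivity)
  have hp0 : 0 < (r - a / 2) / 3 := by linarith
  have h2 : (2 / 3 * β * (2 * r - β * a) * (r - (1 + β) * a / 4) +
      ((1 + β) * a / 3 - r) * (a / 2 - T - β * (r - β * a))) * ((r - a / 2) / 3) =
      ((r - a / 2) / 3 - T) * E0 + T * E1 := by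
    rw [hE0, hE1]
    ring
  have h3 : 0 ≤ (2 / 3 * β * (2 * r - β * a) * (r - (1 + β) * a / 4) +
      ((1 + β) * a / 3 - r) * (a / 2 - T - β * (r - β * a))) * ((r - a / 2) / 3) := by
    rw [h2]
    have h4 : 0 ≤ (r - a / 2) / 3 - T := by linarith
    positivity
  exact nonneg_of_mul_nonneg_left h3 hp0

lemma KK_deriv {r β a : ℝ} (ha2 : a < 2 * r) :
    HasDerivAt (KK r β) (KK r β a * (-(a / 2) + β * (r - β * a) + TT r a)) a := by
  have h1 := fL_deriv r a
  have h2 : HasDerivAt (fun a => W (r - β * a)) (β * (r - β * a) * W (r - β * a)) a := by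
    unfold W
    have h3 : HasDerivAt (fun a : ℝ => r - β * a) (-β) a := by
      have := ((hasDerivAt_id a).const_mul β).const_sub r
      simpa using this
    have h4 := (((h3.fun_pow 2).fun_neg).div_const 2).exp
    refine h4.congr_deriv ?_
    norm_num
    ring
  have h3 : HasDerivAt (fun a : ℝ => 2 * r - a) (-1) a := by
    have := (hasDerivAt_id a).const_sub (2 * r)
    simpa using this
  have h4 : 2 * r - a ≠ 0 := by linarith
  have hp : 0 < r - a / 2 := by linarith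
  have hI := I2_pos hp
  have hf : fL r a ≠ 0 := by
    unfold fL
    exact mul_ne_zero (Real.exp_pos _).ne' hI.ne'
  have h5 := (h1.fun_mul h2).fun_div h3 h4
  have hn : nL r a = a / 2 * fL r a + eL r a := by
    unfold nL fL eL
    rw [show -r ^ 2 + r * a - a ^ 2 / 2 = -a ^ 2 / 4 + -(r - a / 2) ^ 2 by ring, Real.exp_add]
  refine h5.congr_deriv ?_
  unfold KK TT
  rw [hn]
  field_simp
  ring

/-- the integrand -/
noncomputable def FH (r β a : ℝ) : ℝ :=
  a * (β * fL r (β * a) * W (r - a) - fL r a * W (r - β * a))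

lemma FH_cont (r β : ℝ) : Continuous (FH r β) := by
  have h1 : Continuous (fL r) := continuous_iff_continuousAt.2 fun x => (fL_deriv r x).continuousAt
  have h2 : Continuous W := by
    unfold W
    fun_prop
  unfold FH
  have h3 : Continuous fun a : ℝ => fL r (β * a) := h1.comp (by fun_prop)
  have h4 : Continuous fun a : ℝ => W (r - a) := h2.comp (by fun_prop)
  have h5 : Continuous fun a : ℝ => W (r - β * a) := h2.comp (by fun_prop)
  exact continuous_id.mul (((continuous_const.mul h3).mul h4).sub (h1.mul h5))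

lemma key4 {r β x : ℝ} (hβ : 7 / 10 ≤ β) (hβ1 : β ≤ 1) (hx : 0 ≤ x) (hx2 : x < 2 * r) :
    (1 - β) * (x ^ 2 * ((1 + β) * x / 3 - r)) * KK r β x ≤ ∫ a in (0:ℝ)..x, FH r β a := by
  have h := mono_aux (f := fun x => (∫ a in (0:ℝ)..x, FH r β a) -
      (1 - β) * (x ^ 2 * ((1 + β) * x / 3 - r)) * KK r β x)
    (f' := fun x => FH r β x - ((1 - β) * (x * ((1 + β) * x - 2 * r)) * KK r β x +
      (1 - β) * (x ^ 2 * ((1 + β) * x / 3 - r)) *
        (KK r β x * (-(x / 2) + β * (r - β * x) + TT r x)))) hx ?_ ?_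
  · simp only [intervalIntegral.integral_same] at h
    linarith
  · intro a ha
    have h1 : HasDerivAt (fun x => ∫ a in (0:ℝ)..x, FH r β a) (FH r β a) a :=
      intervalIntegral.integral_hasDerivAt_right ((FH_cont r β).intervalIntegrable _ _)
        ((FH_cont r β).stronglyMeasurableAtFilter _ _) (FH_cont r β).continuousAt
    have h2 : HasDerivAt (fun x : ℝ => (1 - β) * (x ^ 2 * ((1 + β) * x / 3 - r)))
        ((1 - β) * (a * ((1 + β) * a - 2 * r))) a := by
      have h3 : HasDerivAt (fun x : ℝ => (1 + β) * x / 3 - r) ((1 + β) / 3) a := by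
        have := (((hasDerivAt_id a).const_mul (1 + β)).div_const 3).sub_const r
        simpa using this
      have h4 := ((hasDerivAt_pow 2 a).fun_mul h3).const_mul (1 - β)
      refine h4.congr_deriv ?_
      push_cast
      ring
    have h5 := KK_deriv (r := r) (β := β) (a := a) (by linarith [ha.2])
    exact h1.sub (h2.mul h5)
  · intro a ha
    have ha2 : a < 2 * r := by linarith [ha.2]
    have hT := TT_bounds ha2
    have h1 := key1 (r := r) (a := a) (by linarith : (0:ℝ) ≤ β) hβ1 ha.1 ha2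
    have h2 := key3 hβ hβ1 ha2 hT.1 hT.2
    have h3 : fL r a * W (r - β * a) = KK r β a * (2 * r - a) := by
      unfold KK
      rw [div_mul_cancel₀]
      linarith
    have h4 := KK_nonneg (r := r) (β := β) ha2
    have h5 : 0 ≤ (1 - β) * KK r β a * a ^ 2 * (2 / 3 * β * (2 * r - β * a) *
        (r - (1 + β) * a / 4) + ((1 + β) * a / 3 - r) * (a / 2 - TT r a - β * (r - β * a))) := by
      have : 0 ≤ 1 - β := by linarith
      positivity
    have h6 : FH r β a ≥ a * (KK r β a * (β * (2 * r - β * a) *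
        (1 + 2 / 3 * (1 - β) * a * (r - (1 + β) * a / 4))) - KK r β a * (2 * r - a)) := by
      unfold FH
      rw [h3]
      refine mul_le_mul_of_nonneg_left ?_ ha.1
      linarith
    have h7 : a * (KK r β a * (β * (2 * r - β * a) *
        (1 + 2 / 3 * (1 - β) * a * (r - (1 + β) * a / 4))) - KK r β a * (2 * r - a)) -
        ((1 - β) * (a * ((1 + β) * a - 2 * r)) * KK r β a +
      (1 - β) * (a ^ 2 * ((1 + β) * a / 3 - r)) *
        (KK r β a * (-(a / 2) + β * (r - β * a) + TT r a))) =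
        (1 - β) * KK r β a * a ^ 2 * (2 / 3 * β * (2 * r - β * a) *
        (r - (1 + β) * a / 4) + ((1 + β) * a / 3 - r) * (a / 2 - TT r a - β * (r - β * a))) := by
      ring
    linarith

theorem s_H : Pool.Agent.H770.GS.S_H := by
  intro r β hr hβ2 hβ0 hβ1
  have hβ : 7 / 10 ≤ β := by nlinarith
  have hlim : Tendsto (fun x => ∫ a in (0:ℝ)..x, FH r β a) (𝓝[<] (2 * r))
      (𝓝 (∫ a in (0:ℝ)..(2 * r), FH r β a)) := by
    have h1 : Continuous fun x => ∫ a in (0:ℝ)..x, FH r β a :=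
      intervalIntegral.continuous_primitive (fun a b => (FH_cont r β).intervalIntegrable a b) 0
    exact (h1.tendsto (2 * r)).mono_left nhdsWithin_le_nhds
  have hne : (𝓝[<] (2 * r)).NeBot := inferInstance
  show 0 ≤ ∫ a in (0:ℝ)..(2 * r), FH r β a
  refine ge_of_tendsto hlim ?_
  have h2 : 3 * r / (1 + β) < 2 * r := by
    rw [div_lt_iff₀ (by linarith)]
    nlinarith
  filter_upwards [Ioo_mem_nhdsLT h2] with x hx
  have hx0 : 0 ≤ x := le_trans (by positivity) hx.1.le
  have h3 := key4 hβ hβ1 hx0 hx.2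
  have h4 : 0 ≤ (1 + β) * x / 3 - r := by
    have := hx.1
    rw [div_lt_iff₀ (by linarith)] at this
    linarith
  have h5 := KK_nonneg (r := r) (β := β) hx.2
  have h6 : 0 ≤ 1 - β := by linarith
  have h7 : 0 ≤ (1 - β) * (x ^ 2 * ((1 + β) * x / 3 - r)) * KK r β x := by positivity
  linarith

end Pool.Agent.H278.TBH
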